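import Pool.Agent.H3.NC.Sph
import Pool.Agent.H44.RC.CCO
import Pool.Agent.H64.NC.CHU
import Pool.Agent.H42.PR.Cmp

/-!
# Corollary (Z): conical points of the postcritical set lie over nondegenerate components

`PJ f J`: the closure of the orbits (from the first iterate on) of the critical points in `J`. `zed`: if no critical value of `J` is conical, `x` is a conical point of `PJ f J` (times `l`, radius `δ`) and `y` is a limit point of the `f^[l] x`, then the component of `y` in `PJ f J` is not `{y}`.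
PROOF. Otherwise `PJ f J = P1 ∪ P2`, disjoint closed sets, `y ∈ P1 ⊆ disc (y, δ / 4)` (`split_of_comp`). `l` a conical time with `f^[l] x` close to `y`, `V` the part of the conical neighbourhood over `disc (y, δ / 2)`. Among all critical values `v` of `J` and all times `n` with `f^[n] v ∈ V`, `f^[n + l] v ∈ P1` take `n` minimal.
Then the pull back of the disc of radius `η` (small, independent of `l`) at `f^[n + l] v` along the orbit of `v` contains no critical point: at the times `k ≥ n` because `f^[l]` is injective on `V`, at the times `k < n` by minimality. So `v` is conical.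
-/

set_option autoImplicit false

open Filter Topology Set

namespace Pool.Agent.H31.NZ

open Pool.Agent.H35.EX (chord chord_comm)
open Pool.Agent.H32.BT (IsCrit)
open Pool.Agent.H44.RR (chord_zero)
open Pool.Agent.H44.RC (CC cc_open cc_mem cc_sub cc_map cc_max cc_cl cc_eq cc_onto cc_pre ch_ball ch_cball ch_tri)
open Pool.Agent.H3.NC (Wk CT Uni CnS)

variable {f : OnePoint ℂ → OnePoint ℂ}

/-- the closure of the orbits of the critical points in `J` -/
def PJ (f : OnePoint ℂ → OnePoint ℂ) (J : Set (OnePoint ℂ)) : Set (OnePoint ℂ) :=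
  closure {y | ∃ c, IsCrit f c ∧ c ∈ J ∧ ∃ n : ℕ, 1 ≤ n ∧ f^[n] c = y}

/-- the orbit of a critical point of `J` is in `PJ` -/
theorem pj_orb {J : Set (OnePoint ℂ)} {c : OnePoint ℂ} (hc : IsCrit f c) (hJ : c ∈ J) (n : ℕ) :
    f^[n] (f c) ∈ PJ f J :=
  subset_closure ⟨c, hc, hJ, n + 1, by omega, by rw [Function.iterate_succ_apply]⟩

theorem pj_sub {J : Set (OnePoint ℂ)} (hJc : IsClosed J) (hJi : ∀ x ∈ J, f x ∈ J) : PJ f J ⊆ J := by
  refine closure_minimal ?_ hJc
  rintro y ⟨c, -, hcJ, n, -, rfl⟩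
  induction n with
  | zero => exact hcJ
  | succ n ih => rw [Function.iterate_succ_apply']; exact hJi _ ih

theorem pj_map (hf : Continuous f) {J : Set (OnePoint ℂ)} {x : OnePoint ℂ} (hx : x ∈ PJ f J) (l : ℕ) :
    f^[l] x ∈ PJ f J := by
  have h1 : MapsTo f^[l] {y | ∃ c, IsCrit f c ∧ c ∈ J ∧ ∃ n : ℕ, 1 ≤ n ∧ f^[n] c = y}
      {y | ∃ c, IsCrit f c ∧ c ∈ J ∧ ∃ n : ℕ, 1 ≤ n ∧ f^[n] c = y} := by
    rintro y ⟨c, hc, hcJ, n, hn, rfl⟩
    exact ⟨c, hc, hcJ, l + n, by omega, by rw [Function.iterate_add_apply]⟩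
  exact h1.closure (hf.iterate l) hx

/-- the component over which the last iterates are injective -/
private theorem comp_eq (hf : Continuous f) (ho : IsOpenMap f) {l : ℕ} {V B : Set (OnePoint ℂ)} (hV : IsOpen V)
    (hi : InjOn f^[l] V) (hB : IsOpen B) (hBV : B ⊆ f^[l] '' V) {z : OnePoint ℂ}
    (hz : z ∈ V) (hzB : f^[l] z ∈ B) : CC f l B z ⊆ V := by
  -- the set `U` of the points of `V` over `B` is open and closed in the preimage of `B`
  obtain ⟨U, hU⟩ : ∃ U, U = V ∩ f^[l] ⁻¹' B := ⟨_, rfl⟩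
  have hUo : IsOpen U := by
    rw [hU]
    exact hV.inter (hB.preimage (hf.iterate l))
  have hUcl : ∀ w ∈ closure U, f^[l] w ∈ B → w ∈ U := by
    intro w hw hwB
    obtain ⟨w', hw', hww'⟩ := hBV hwB
    have hw'U : w' ∈ U := by
      rw [hU]
      exact ⟨hw', by rw [mem_preimage, hww']; exact hwB⟩
    by_contra hne
    have hne' : w ≠ w' := fun h => hne (h ▸ hw'U)
    obtain ⟨A, A', hA, hA', hwA, hwA', hd⟩ := t2_separation hne'
    -- images of `U ∩ A'` are a neighbourhood of `f^l w`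
    have h1 : IsOpen (f^[l] '' (U ∩ A')) :=
      Pool.Agent.H91.Fatou.open_iterate ho l _ (hUo.inter hA')
    have h2 : f^[l] w ∈ f^[l] '' (U ∩ A') := by
      rw [← hww']
      exact ⟨w', ⟨hw'U, hwA'⟩, rfl⟩
    have h3 : A ∩ f^[l] ⁻¹' (f^[l] '' (U ∩ A')) ∈ 𝓝 w :=
      inter_mem (hA.mem_nhds hwA) ((h1.preimage (hf.iterate l)).mem_nhds h2)
    obtain ⟨u, ⟨hu1, u', ⟨hu2, hu3⟩, hu4⟩, hu5⟩ := mem_closure_iff_nhds.1 hw _ h3
    have h6 : u' = u := by
      rw [hU] at hu2 hu5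
      exact hi hu2.1 hu5.1 hu4
    rw [h6] at hu3
    exact Set.disjoint_left.1 hd hu1 hu3
  have h1 : CC f l B z ⊆ U := by
    have h2 := cc_pre (f := f) l B z
    by_contra hcon
    rw [not_subset] at hcon
    obtain ⟨q, hq, hqU⟩ := hcon
    have h3 : CC f l B z ⊆ U ∪ (closure U)ᶜ := by
      intro p hp
      by_cases hpU : p ∈ closure U
      · exact Or.inl (hUcl p hpU (cc_sub hp))
      · exact Or.inr hpU
    have h4 := h2 _ _ hUo isClosed_closure.isOpen_compl h3
      ⟨z, cc_mem hzB, by rw [hU]; exact ⟨hz, hzB⟩⟩ ⟨q, hq, fun h => hqU (hUcl q h (cc_sub hq))⟩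
    obtain ⟨p, -, hp1, hp2⟩ := h4
    exact hp2 (subset_closure hp1)
  refine h1.trans ?_
  rw [hU]
  exact inter_subset_left

/-- no critical points over the part where the last iterates are injective -/
private theorem comp_nc (hf : Continuous f) (ho : IsOpenMap f) {l : ℕ} {V B : Set (OnePoint ℂ)} (hV : IsOpen V)
    (hi : InjOn f^[l] V) (hB : IsOpen B) (hBV : B ⊆ f^[l] '' V) {z : OnePoint ℂ}
    (hz : z ∈ V) (hzB : f^[l] z ∈ B) {i : ℕ} (hil : i < l) {c : OnePoint ℂ} (hc : c ∈ CC f (l - i) B (f^[i] z)) :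
    ¬ IsCrit f c := by
  have hfz : f^[l - i] (f^[i] z) ∈ B := by
    rw [← Function.iterate_add_apply, Nat.sub_add_cancel hil.le]
    exact hzB
  have h1 : IsOpen (CC f (l - i) B (f^[i] z)) := cc_open hf _ hB _
  have h2 : f^[i] '' CC f i (CC f (l - i) B (f^[i] z)) z = CC f (l - i) B (f^[i] z) :=
    cc_onto hf ho h1 (cc_pre _ _ _) (cc_mem hfz)
  have h3 : CC f i (CC f (l - i) B (f^[i] z)) z ⊆ CC f l B z := by
    refine cc_max (cc_pre _ _ _) (cc_mem (cc_mem hfz)) fun a ha => ?_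
    have h4 := cc_sub (cc_sub ha)
    rwa [← Function.iterate_add_apply, Nat.sub_add_cancel hil.le] at h4
  have h4 := comp_eq hf ho hV hi hB hBV hz hzB
  have h5 : CC f (l - i) B (f^[i] z) ⊆ f^[i] '' V := by
    rw [← h2]
    exact image_mono (h3.trans h4)
  intro hcr
  refine hcr ⟨CC f (l - i) B (f^[i] z), h1.mem_nhds hc, ?_⟩
  intro p hp q hq hpq
  obtain ⟨p', hp', rfl⟩ := h5 hp
  obtain ⟨q', hq', rfl⟩ := h5 hq
  have h6 : f^[l] p' = f^[l] q' := by
    have h7 : l = (l - i - 1) + 1 + i := by omega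
    rw [h7, Function.iterate_add_apply, Function.iterate_add_apply, Function.iterate_add_apply (m := l - i - 1 + 1),
      Function.iterate_add_apply, Function.iterate_one, hpq]
  rw [hi hp' hq' h6]

theorem zed (hf : Continuous f) (ho : IsOpenMap f) (hfin : {c | IsCrit f c}.Finite) {J : Set (OnePoint ℂ)}
    (hJc : IsClosed J) (hJi : ∀ x ∈ J, f x ∈ J)
    (huni : ∀ (x : OnePoint ℂ) (n : ℕ) (δ : ℝ), 0 < δ → δ ≤ 1 / 8 → (∀ k < n, ∀ c ∈ Wk f x n δ k, ¬ IsCrit f c) →
      Uni f x n δ)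
    (hfat : ∀ c, IsCrit f c → c ∉ J → ∃ (δ : ℝ) (N : ℕ), 0 < δ ∧ ∀ m, N ≤ m → ∀ y ∈ J, δ ≤ chord (f^[m] c) y)
    (hnc : ∀ c, IsCrit f c → c ∈ J → ¬ CnS f (f c)) {x y : OnePoint ℂ} (hx : x ∈ PJ f J) {δ : ℝ} (hδ : 0 < δ)
    (hcon : ∀ (N : ℕ) (ε : ℝ), 0 < ε → ∃ l : ℕ, N ≤ l ∧ chord (f^[l] x) y < ε ∧ ∃ W : Set (OnePoint ℂ),
      IsOpen W ∧ x ∈ W ∧ InjOn f^[l] W ∧ {z | chord (f^[l] x) z < δ} ⊆ f^[l] '' W) :
    y ∈ PJ f J ∧ connectedComponentIn (PJ f J) y ≠ {y} := by
  have hPc : IsClosed (PJ f J) := isClosed_closure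
  have hPJ : PJ f J ⊆ J := pj_sub hJc hJi
  have hyP : y ∈ PJ f J := by
    by_contra hy
    obtain ⟨ε, hε, hsep⟩ := Pool.Agent.H64.NC.ch_sep hPc (isClosed_singleton (x := y))
      (disjoint_singleton_right.2 hy)
    obtain ⟨l, -, h1, -⟩ := hcon 0 ε hε
    have h2 := hsep _ (pj_map hf hx l) y rfl
    linarith
  refine ⟨hyP, fun hcomp => ?_⟩
  -- the splitting
  have hO : IsClosed {z | chord y z < δ / 4}ᶜ := (ch_ball _ _).isClosed_compl
  obtain ⟨P1, P2, hP1, hP2, hP12, hPu, hyP1, hP2s⟩ := Pool.Agent.H42.PR.split_of_comp (K := PJ f J)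
    (O := {z | chord y z < δ / 4}ᶜ) hPc.isCompact hO hyP (by
      rw [hcomp, disjoint_singleton_left]
      intro h
      apply h
      show chord y y < δ / 4
      rw [chord_zero]
      linarith)
  have hP1s : ∀ z ∈ P1, chord y z < δ / 4 := by
    intro z hz
    by_contra hcon2
    have h1 : z ∈ PJ f J := by rw [← hPu]; exact Or.inl hz
    exact Set.disjoint_left.1 hP12 hz (hP2s ⟨h1, hcon2⟩)
  have hP1J : P1 ⊆ PJ f J := by rw [← hPu]; exact subset_union_left
  obtain ⟨η1, hη1, hsep⟩ := Pool.Agent.H64.NC.ch_sep hP1 hP2 hP12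
  -- attracted critical points
  obtain ⟨δF, hδF, N0, hN0⟩ : ∃ δF : ℝ, 0 < δF ∧ ∃ N0 : ℕ, ∀ m, N0 ≤ m → ∀ c, IsCrit f c → c ∉ J → ∀ y ∈ J,
      δF ≤ chord (f^[m] c) y := by
    have h1 : ∀ᶠ δ in 𝓝[>] (0 : ℝ), ∀ c ∈ {c | IsCrit f c}, c ∉ J → ∀ᶠ m : ℕ in atTop, ∀ y ∈ J,
        δ ≤ chord (f^[m] c) y := by
      rw [Filter.eventually_all_finite hfin]
      intro c hc
      by_cases hcJ : c ∈ J
      · exact Filter.Eventually.of_forall fun δ h => absurd hcJ h
      · obtain ⟨δ, N, h2, h3⟩ := hfat c hc hcJ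
        have h4 : ∀ᶠ δ' in 𝓝[>] (0 : ℝ), δ' < δ := nhdsWithin_le_nhds (Iio_mem_nhds h2)
        filter_upwards [h4] with δ' h5 _
        filter_upwards [eventually_ge_atTop N] with m hm y hy
        exact h5.le.trans (h3 m hm y hy)
    obtain ⟨δF, h2, h3⟩ := (h1.and self_mem_nhdsWithin).exists
    have h4 : ∀ᶠ m : ℕ in atTop, ∀ c ∈ {c | IsCrit f c}, c ∉ J → ∀ y ∈ J, δF ≤ chord (f^[m] c) y := by
      rw [Filter.eventually_all_finite hfin]
      intro c hc
      by_cases hcJ : c ∈ J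
      · exact Filter.Eventually.of_forall fun m h => absurd hcJ h
      · filter_upwards [h2 c hc hcJ] with m hm _
        exact hm
    obtain ⟨N0, hN0⟩ := eventually_atTop.1 h4
    exact ⟨δF, h3, N0, fun m hm c hc hcJ y hy => hN0 m hm c hc hcJ y hy⟩
  -- the radius
  obtain ⟨η, hη, hηδ, hη8, hηF, hηs⟩ : ∃ η : ℝ, 0 < η ∧ η ≤ δ / 4 ∧ η ≤ 1 / 8 ∧ η ≤ δF ∧ η ≤ η1 := by
    refine ⟨min (min (δ / 4) (1 / 8)) (min δF η1), lt_min (lt_min (by linarith) (by norm_num)) (lt_min hδF hη1),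
      (min_le_left _ _).trans (min_le_left _ _), (min_le_left _ _).trans (min_le_right _ _),
      (min_le_right _ _).trans (min_le_left _ _), (min_le_right _ _).trans (min_le_right _ _)⟩
  have hclose : ∀ z ∈ P1, ∀ w ∈ PJ f J, chord z w < η → w ∈ P1 := by
    intro z hz w hw hzw
    rw [← hPu] at hw
    rcases hw with hw | hw
    · exact hw
    · have := hsep z hz w hw
      linarith
  -- no conical times of radius `η`
  have hun : ∀ᶠ m : ℕ in atTop, ∀ c' ∈ {c | IsCrit f c}, c' ∈ J → ¬ ∃ W : Set (OnePoint ℂ), IsOpen W ∧ f c' ∈ W ∧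
      Set.InjOn f^[m] W ∧ {z | chord (f^[m] (f c')) z < η} ⊆ f^[m] '' W := by
    rw [Filter.eventually_all_finite hfin]
    intro c' hc'
    by_cases hcJ' : c' ∈ J
    · have h1 := hnc c' hc' hcJ'
      unfold CnS at h1
      push Not at h1
      obtain ⟨N, hN⟩ := h1 η hη
      filter_upwards [eventually_ge_atTop N] with m hm _
      rintro ⟨W, h2, h3, h4, h5⟩
      exact hN m hm W h2 h3 h4 h5
    · exact Filter.Eventually.of_forall fun m h => absurd h hcJ'
  obtain ⟨N1, hN1⟩ := eventually_atTop.1 hun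
  -- the conical time
  obtain ⟨l, hl, hly, W, hW, hxW, hWi, hWo⟩ := hcon (max N0 N1) η hη
  obtain ⟨V, hV⟩ : ∃ V, V = W ∩ f^[l] ⁻¹' {z | chord y z < δ / 2} := ⟨_, rfl⟩
  have hVo : IsOpen V := by
    rw [hV]
    exact hW.inter ((ch_ball _ _).preimage (hf.iterate l))
  have hVi : InjOn f^[l] V := by
    rw [hV]
    exact hWi.mono inter_subset_left
  have hVs : {z | chord y z < δ / 2} ⊆ f^[l] '' V := by
    intro z hz
    have h1 : chord (f^[l] x) z < δ := by
      have h2 := ch_tri (f^[l] x) y z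
      have h3 : chord y z < δ / 2 := hz
      linarith
    obtain ⟨w, hw, rfl⟩ := hWo h1
    exact ⟨w, by rw [hV]; exact ⟨hw, hz⟩, rfl⟩
  have hlx : f^[l] x ∈ P1 := by
    refine hclose y hyP1 _ (pj_map hf hx l) ?_
    rw [chord_comm]
    exact hly
  have hxV : x ∈ V := by
    rw [hV]
    refine ⟨hxW, ?_⟩
    show chord y (f^[l] x) < δ / 2
    have := hP1s _ hlx
    linarith
  -- good pairs
  have hgood : ∃ n : ℕ, ∃ c, IsCrit f c ∧ c ∈ J ∧ f^[n] (f c) ∈ V ∧ f^[l] (f^[n] (f c)) ∈ P1 := by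
    have h1 : V ∩ f^[l] ⁻¹' P2ᶜ ∈ 𝓝 x := by
      refine (hVo.inter (hP2.isOpen_compl.preimage (hf.iterate l))).mem_nhds ⟨hxV, ?_⟩
      exact fun h => Set.disjoint_left.1 hP12 hlx h
    obtain ⟨w, ⟨hw1, hw2⟩, c, hc, hcJ, n, hn, hnw⟩ := mem_closure_iff_nhds.1 hx _ h1
    obtain ⟨n', rfl⟩ : ∃ n', n = n' + 1 := ⟨n - 1, by omega⟩
    rw [Function.iterate_succ_apply] at hnw
    subst hnw
    refine ⟨n', c, hc, hcJ, hw1, ?_⟩
    have h2 := pj_map hf (pj_orb hc hcJ n') l
    rw [← hPu] at h2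
    exact h2.resolve_right hw2
  classical
  obtain ⟨n, ⟨c, hc, hcJ, hnV, hnP⟩, hmin⟩ : ∃ n : ℕ, (∃ c, IsCrit f c ∧ c ∈ J ∧ f^[n] (f c) ∈ V ∧
      f^[l] (f^[n] (f c)) ∈ P1) ∧ ∀ n' < n, ¬ ∃ c, IsCrit f c ∧ c ∈ J ∧ f^[n'] (f c) ∈ V ∧
      f^[l] (f^[n'] (f c)) ∈ P1 :=
    ⟨Nat.find hgood, Nat.find_spec hgood, fun n' h => Nat.find_min hgood h⟩
  have hln : f^[n + l] (f c) = f^[l] (f^[n] (f c)) := by
    rw [add_comm, Function.iterate_add_apply]
  obtain ⟨B, hB⟩ : ∃ B, B = {z | chord z (f^[n + l] (f c)) < η} := ⟨_, rfl⟩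
  have hB' : B = {z | chord (f^[n + l] (f c)) z < η} := by
    rw [hB]
    ext z
    rw [mem_ofPred_eq, mem_ofPred_eq, chord_comm]
  have hBo : IsOpen B := by
    rw [hB']
    exact ch_ball _ _
  have hBc : B ⊆ {z | chord y z < δ / 2} := by
    intro z hz
    rw [hB'] at hz
    have h1 : chord (f^[n + l] (f c)) z < η := hz
    have h2 := hP1s _ hnP
    rw [← hln] at h2
    have h3 := ch_tri y (f^[n + l] (f c)) z
    show chord y z < δ / 2
    linarith
  have hBV : B ⊆ f^[l] '' V := hBc.trans hVs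
  have hvB : f^[l] (f^[n] (f c)) ∈ B := by
    rw [hB', hln]
    show chord _ _ < η
    rw [chord_zero]
    exact hη
  have hWk : ∀ k, Wk f (f c) (n + l) η k = CC f (n + l - k) B (f^[k] (f c)) := by
    intro k
    rw [hB]
    rfl
  have hU : Uni f (f c) (n + l) η := by
    refine huni (f c) (n + l) η hη hη8 fun k hk c1 hc1 hcr => ?_
    rw [hWk] at hc1
    rcases le_or_gt n k with hnk | hnk
    · obtain ⟨i, rfl⟩ : ∃ i, k = n + i := ⟨k - n, by omega⟩
      have h1 : n + l - (n + i) = l - i := by omega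
      have h2 : f^[n + i] (f c) = f^[i] (f^[n] (f c)) := by
        rw [add_comm, Function.iterate_add_apply]
      rw [h1, h2] at hc1
      exact comp_nc hf ho hVo hVi hBo hBV hnV hvB (by omega) hc1 hcr
    · have h1 := cc_map hf (i := n - k) (by omega) hc1
      have h2 : n + l - k - (n - k) = l := by omega
      rw [h2, ← Function.iterate_add_apply, Nat.sub_add_cancel hnk.le] at h1
      have h3 := comp_eq hf ho hVo hVi hBo hBV hnV hvB h1
      have h4 : f^[l] (f^[n - k] c1) ∈ B := cc_sub h1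
      have h5 : chord (f^[l + (n - k)] c1) (f^[n + l] (f c)) < η := by
        rw [hB] at h4
        rw [Function.iterate_add_apply]
        exact h4
      have hzJ : f^[n + l] (f c) ∈ J := by
        rw [hln]
        exact hPJ (hP1J hnP)
      by_cases hcJ1 : c1 ∈ J
      · refine hmin (n - k - 1) (by omega) ⟨c1, hcr, hcJ1, ?_, ?_⟩
        · rw [← Function.iterate_succ_apply]
          have h6 : (n - k - 1).succ = n - k := by omega
          rw [h6]
          exact h3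
        · rw [← Function.iterate_succ_apply]
          have h6 : (n - k - 1).succ = n - k := by omega
          rw [h6]
          refine hclose _ hnP _ ?_ ?_
          · have h7 := pj_orb hcr hcJ1 (l + (n - k - 1))
            rw [← Function.iterate_succ_apply] at h7
            have h8 : (l + (n - k - 1)).succ = l + (n - k) := by omega
            rw [h8, Function.iterate_add_apply] at h7
            exact h7
          · rw [hB', hln] at h4
            exact h4
      · have h6 := hN0 (l + (n - k)) (by omega) c1 hcr hcJ1 _ hzJ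
        linarith
  obtain ⟨hU1, hU2⟩ := hU
  refine hN1 (n + l) (by omega) c hc hcJ ⟨Wk f (f c) (n + l) η 0, ?_, ?_, hU1, hU2⟩
  · rw [hWk]
    exact cc_open hf _ hBo _
  · rw [hWk]
    refine cc_mem ?_
    show f^[n + l - 0] (f c) ∈ B
    rw [Nat.sub_zero, hln]
    exact hvB

end Pool.Agent.H31.NZ
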